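import Pool.Agent.Q143.CN.Measure

/-!
# Polytope measures in the real span of simplex measures are integral

`S` is a set of points of `ℝ ^ d`. If the standard measure of a set `P` of finite measure, for
instance of a generalized polytope `P` with vertex set `S`, is a real linear combination of the
standard measures of `d`-simplices with vertices in `S`, then it is an integral linear combination
of them. For finite `S` there is a basis of the space of these combinations which consists of simplex
measures and generates the group generated by all the simplex measures.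

Proof. Replace the simplices by the cones over them in `ℝ ^ (d + 1)`. Fix `v₀ ∈ S`. Modulo null
sets every cone is an integral combination of the cones containing `v₀`, and these can be grouped
according to the hyperplanes `H` spanned by the other vectors. The jump across `H` in direction `v₀`
of a combination of such cones is the combination of the facets in `H`, and one can use induction.
-/

set_option autoImplicit false

namespace Pool.Agent.Results.MP_8bc176_co.IntegralInSimplexLattice

open MeasureTheory Q143.CN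

variable {d : ℕ}

/-- The standard measures `μ_Δ` of the `d`-simplices `Δ` with all vertices in `S`. -/
def simplexMeasures (S : Set (E d)) : Set (SignedMeasure (E d)) :=
  {μ | ∃ T : Finset (E d), (T : Set (E d)) ⊆ S ∧ IsSimplex T ∧ μ = mu (convexHull ℝ (T : Set (E d)))}

/-- The real vector space `𝔐^Δ(S)` spanned by the simplex measures. -/
noncomputable def MDelta (S : Set (E d)) : Submodule ℝ (SignedMeasure (E d)) :=
  Submodule.span ℝ (simplexMeasures S)

/-- The group `Λ(S)` generated by the simplex measures. -/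
noncomputable def Lam (S : Set (E d)) : AddSubgroup (SignedMeasure (E d)) :=
  AddSubgroup.closure (simplexMeasures S)

/-- measure with a given density -/
noncomputable def dens (f : E d → ℝ) : SignedMeasure (E d) :=
  (volume : Measure (E d)).withDensityᵥ f

theorem dens_sum {ι : Type*} (s : Finset ι) (c : ι → ℝ) (f : ι → E d → ℝ)
    (hf : ∀ i ∈ s, Integrable (f i)) :
    Integrable (fun x => ∑ i ∈ s, c i * f i x) ∧
      dens (fun x => ∑ i ∈ s, c i * f i x) = ∑ i ∈ s, c i • dens (f i) := by
  classical
  induction s using Finset.induction_on with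
  | empty =>
    refine ⟨by simp, ?_⟩
    simp only [Finset.sum_empty]
    exact withDensityᵥ_zero
  | insert a s ha ih =>
    obtain ⟨h1, h2⟩ := ih fun i hi => hf i (Finset.mem_insert_of_mem hi)
    have h3 : Integrable (fun x => c a * f a x) := (hf a (Finset.mem_insert_self _ _)).const_mul _
    have e : (fun x => ∑ i ∈ insert a s, c i * f i x) =
        (fun x => c a * f a x) + fun x => ∑ i ∈ s, c i * f i x := by
      funext x
      rw [Finset.sum_insert ha]
      rfl
    rw [e]
    refine ⟨h3.add h1, ?_⟩
    rw [Finset.sum_insert ha, ← h2]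
    unfold dens
    rw [withDensityᵥ_add h3 h1]
    congr 1
    exact withDensityᵥ_smul (f a) (c a)

theorem dens_eq_iff {f g : E d → ℝ} (hf : Integrable f) (hg : Integrable g) :
    dens f = dens g ↔ f =ᵐ[volume] g := Integrable.withDensityᵥ_eq_iff hf hg

theorem integrable_hull (T : Finset (E d)) :
    Integrable ((convexHull ℝ (T : Set (E d))).indicator fun _ => (1 : ℝ)) := by
  have hc : IsCompact (convexHull ℝ (T : Set (E d))) :=
    Set.Finite.isCompact_convexHull (𝕜 := ℝ) T.finite_toSet
  refine IntegrableOn.integrable_indicator ?_ hc.measurableSet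
  exact integrableOn_const hc.measure_lt_top.ne

/-- The case of a finite set `S`. -/
theorem finite_case (S : Finset (E d)) :
    ∃ 𝔟 ⊆ simplexMeasures (S : Set (E d)), LinearIndepOn ℝ id 𝔟 ∧
      simplexMeasures (S : Set (E d)) ⊆ AddSubgroup.closure 𝔟 ∧
      ∀ f : E d → ℝ, Integrable f → (∀ᵐ x, ∃ m : ℤ, f x = m) → dens f ∈ MDelta (S : Set (E d)) →
        dens f ∈ AddSubgroup.closure 𝔟 := by
  classical
  obtain ⟨𝔅, h1, h2, h3⟩ := main (S.image hom) (LinearMap.snd ℝ (E d) ℝ) (by
    intro s hs
    obtain ⟨x, -, rfl⟩ := Finset.mem_image.1 hs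
    change (0 : ℝ) < 1
    exact one_pos) (Module.finrank ℝ (⊤ : Submodule ℝ (E d × ℝ))) ⊤ rfl
  have hT : ∀ B ∈ 𝔅, ∃ T, T ⊆ S ∧ IsSimplex T ∧ T.image hom = B := fun B hB =>
    isSimplex_of_isBasis (h1 B hB).1 (h1 B hB).2
  choose! T hTS hTsimp hTB using hT
  let g : Finset (E d × ℝ) → E d → ℝ := fun B x => ind B (hom x)
  let m : Finset (E d × ℝ) → SignedMeasure (E d) := fun B => mu (convexHull ℝ (T B : Set (E d)))
  have hae : ∀ U : Finset (E d), IsSimplex U →
      ((convexHull ℝ (U : Set (E d))).indicator fun _ => (1 : ℝ)) =ᵐ[volume] g (U.image hom) :=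
    fun U hU => ae_indicator hU
  have hgi : ∀ U : Finset (E d), IsSimplex U → Integrable (g (U.image hom)) := fun U hU =>
    (integrable_hull U).congr (hae U hU)
  have hmu : ∀ U : Finset (E d), IsSimplex U →
      mu (convexHull ℝ (U : Set (E d))) = dens (g (U.image hom)) := fun U hU =>
    (dens_eq_iff (integrable_hull U) (hgi U hU)).2 (hae U hU)
  have hgB : ∀ B ∈ 𝔅, Integrable (g B) := fun B hB => by
    have := hgi (T B) (hTsimp B hB)
    rwa [hTB B hB] at this
  have hm : ∀ B ∈ 𝔅, m B = dens (g B) := fun B hB => by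
    have := hmu (T B) (hTsimp B hB)
    rwa [hTB B hB] at this
  have hcomb : ∀ c : Finset (E d × ℝ) → ℝ, ∑ B ∈ 𝔅, c B • m B =
      dens fun x => ∑ B ∈ 𝔅, c B * g B x := by
    intro c
    rw [(dens_sum 𝔅 c g hgB).2]
    exact Finset.sum_congr rfl fun B hB => by rw [hm B hB]
  have hsub : m '' (𝔅 : Set (Finset (E d × ℝ))) ⊆ simplexMeasures (S : Set (E d)) := by
    rintro _ ⟨B, hB, rfl⟩
    exact ⟨T B, Finset.coe_subset.2 (hTS B hB), hTsimp B hB, rfl⟩
  have hint : ∀ U : Finset (E d), U ⊆ S → IsSimplex U →
      mu (convexHull ℝ (U : Set (E d))) ∈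
        AddSubgroup.closure (m '' (𝔅 : Set (Finset (E d × ℝ)))) := by
    intro U hUS hU
    obtain ⟨n, hn⟩ := h2 (U.image hom) (Finset.image_subset_image hUS) (isBasis_of_isSimplex hU)
    have e : mu (convexHull ℝ (U : Set (E d))) = ∑ B ∈ 𝔅, (n B : ℝ) • m B := by
      rw [hcomb, hmu U hU]
      refine (dens_eq_iff (hgi U hU) (dens_sum 𝔅 _ g hgB).1).2 ?_
      exact hn.ae
    rw [e]
    refine AddSubgroup.sum_mem _ fun B hB => ?_
    rw [Int.cast_smul_eq_zsmul ℝ (n B) (m B)]
    exact zsmul_mem (AddSubgroup.subset_closure (Set.mem_image_of_mem m hB)) _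
  refine ⟨m '' (𝔅 : Set (Finset (E d × ℝ))), hsub, ?_, ?_, ?_⟩
  · apply LinearIndepOn.id_image
    rw [linearIndepOn_finset_iff]
    intro c hc
    rw [hcomb] at hc
    have h0 : (fun x => ∑ B ∈ 𝔅, c B * g B x) =ᵐ[volume] fun _ => (0 : ℝ) := by
      refine (dens_eq_iff (dens_sum 𝔅 c g hgB).1 (integrable_zero _ _ _)).1 ?_
      rw [hc]
      exact withDensityᵥ_zero.symm
    intro B hB
    by_contra hne
    have hgen := gen_int_of_ae h1 (fun B' => (1 / (2 * c B)) * c B') (by
      filter_upwards [h0] with x hx
      refine ⟨0, ?_⟩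
      have hx' : ∑ B ∈ 𝔅, c B * ind B (hom x) = 0 := hx
      have e : ∑ B' ∈ 𝔅, (1 / (2 * c B)) * c B' * ind B' (hom x) =
          (1 / (2 * c B)) * ∑ B ∈ 𝔅, c B * ind B (hom x) := by
        rw [Finset.mul_sum]
        exact Finset.sum_congr rfl fun B' _ => by ring
      rw [e, hx']
      simp)
    obtain ⟨k, hk⟩ := h3 _ hgen B hB
    have hk' : (1 : ℝ) = 2 * k := by
      rw [← hk]
      field_simp
    have : (1 : ℤ) = 2 * k := by exact_mod_cast hk'
    omega
  · rintro _ ⟨U, hUS, hU, rfl⟩
    exact hint U (Finset.coe_subset.1 hUS) hU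
  · intro f hf hfint hfspan
    have hspan : dens f ∈ Submodule.span ℝ (m '' (𝔅 : Set (Finset (E d × ℝ)))) := by
      refine Submodule.span_le.2 ?_ hfspan
      rintro _ ⟨U, hUS, hU, rfl⟩
      have h5 := hint U (Finset.coe_subset.1 hUS) hU
      have h6 : AddSubgroup.closure (m '' (𝔅 : Set (Finset (E d × ℝ)))) ≤
          (Submodule.span ℝ (m '' (𝔅 : Set (Finset (E d × ℝ))))).toAddSubgroup := by
        rw [AddSubgroup.closure_le]
        exact Submodule.subset_span
      exact h6 h5
    rw [← Finset.coe_image] at hspan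
    obtain ⟨a, ha⟩ : ∃ a : Finset (E d × ℝ) → ℝ, ∑ B ∈ 𝔅, a B • m B = dens f := by
      rw [Finset.coe_image, Submodule.mem_span_image_finset_iff_exists_fun] at hspan
      obtain ⟨c, hc⟩ := hspan
      refine ⟨fun B => if h : B ∈ 𝔅 then c ⟨B, h⟩ else 0, ?_⟩
      rw [← hc, ← Finset.sum_coe_sort 𝔅]
      refine Finset.sum_congr rfl fun B _ => ?_
      have hB : (B : Finset (E d × ℝ)) ∈ 𝔅 := B.2
      simp only [dif_pos hB]
    have hfe : f =ᵐ[volume] fun x => ∑ B ∈ 𝔅, a B * g B x := by
      refine (dens_eq_iff hf (dens_sum 𝔅 a g hgB).1).1 ?_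
      rw [← ha, hcomb]
    have hgen := gen_int_of_ae h1 a (by
      filter_upwards [hfe, hfint] with x hx1 hx2
      obtain ⟨k, hk⟩ := hx2
      exact ⟨k, by rw [← hk, hx1]⟩)
    have hai := h3 a hgen
    rw [← ha]
    refine AddSubgroup.sum_mem _ fun B hB => ?_
    obtain ⟨k, hk⟩ := hai B hB
    rw [hk, Int.cast_smul_eq_zsmul ℝ k (m B)]
    exact zsmul_mem (AddSubgroup.subset_closure (Set.mem_image_of_mem m hB)) _

/-- (1) For every set `S` of points of `ℝ ^ d` and every measurable set `P` of finite volume: if the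
standard measure of `P` lies in the real space spanned by the simplex measures of `S`, then it lies
in the group generated by them. In particular this holds for a generalized polytope `P` and `S` its
set of vertices. (2) If `S` is finite, then some basis of this real space consists of simplex
measures and generates the same group as all the simplex measures. -/
theorem result (d : ℕ) :
    (∀ S P : Set (E d), MeasurableSet P → (volume : Measure (E d)) P ≠ ⊤ →
      mu P ∈ MDelta S → mu P ∈ Lam S) ∧
    (∀ S : Set (E d), S.Finite → ∃ 𝔟 ⊆ simplexMeasures S, LinearIndepOn ℝ id 𝔟 ∧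
      Submodule.span ℝ 𝔟 = MDelta S ∧ AddSubgroup.closure 𝔟 = Lam S) := by
  classical
  constructor
  · intro S P hP hPfin hmem
    obtain ⟨F, hFS, hF⟩ := Submodule.mem_span_finite_of_mem_span hmem
    have hex : ∀ μ ∈ F, ∃ T : Finset (E d), (T : Set (E d)) ⊆ S ∧ IsSimplex T ∧
        μ = mu (convexHull ℝ (T : Set (E d))) := fun μ hμ => hFS hμ
    choose! T hTS hTs hTμ using hex
    let S' : Finset (E d) := F.biUnion T
    have hS'S : (S' : Set (E d)) ⊆ S := by
      intro x hx
      obtain ⟨μ, hμ, hxμ⟩ := Finset.mem_biUnion.1 (Finset.mem_coe.1 hx)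
      exact hTS μ hμ hxμ
    have hmono : simplexMeasures (S' : Set (E d)) ⊆ simplexMeasures S := by
      rintro _ ⟨U, hU, hU', rfl⟩
      exact ⟨U, hU.trans hS'S, hU', rfl⟩
    have hF' : (F : Set (SignedMeasure (E d))) ⊆ simplexMeasures (S' : Set (E d)) := by
      intro μ hμ
      refine ⟨T μ, ?_, hTs μ hμ, hTμ μ hμ⟩
      exact Finset.coe_subset.2 (Finset.subset_biUnion_of_mem T hμ)
    obtain ⟨𝔟, h1, -, -, h4⟩ := finite_case S'
    have h5 := h4 (P.indicator fun _ => (1 : ℝ))
      (IntegrableOn.integrable_indicator (integrableOn_const hPfin) hP)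
      (Filter.Eventually.of_forall fun x => by
        by_cases hx : x ∈ P
        · exact ⟨1, by rw [Set.indicator_of_mem hx]; simp⟩
        · exact ⟨0, by rw [Set.indicator_of_notMem hx]; simp⟩)
      (Submodule.span_mono hF' hF)
    exact AddSubgroup.closure_mono (h1.trans hmono) h5
  · intro S hS
    obtain ⟨S', rfl⟩ : ∃ S' : Finset (E d), (S' : Set (E d)) = S := ⟨hS.toFinset, hS.coe_toFinset⟩
    obtain ⟨𝔟, h1, h2, h3, -⟩ := finite_case S'
    have h6 : AddSubgroup.closure 𝔟 = Lam (S' : Set (E d)) :=
      le_antisymm (AddSubgroup.closure_mono h1) ((AddSubgroup.closure_le _).2 h3)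
    refine ⟨𝔟, h1, h2, le_antisymm (Submodule.span_mono h1) (Submodule.span_le.2 ?_), h6⟩
    have h7 : AddSubgroup.closure 𝔟 ≤ (Submodule.span ℝ 𝔟).toAddSubgroup := by
      rw [AddSubgroup.closure_le]
      exact Submodule.subset_span
    exact fun μ hμ => h7 (h3 hμ)

end Pool.Agent.Results.MP_8bc176_co.IntegralInSimplexLattice
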